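import Pool.Agent.Helper44.GJ.Stmts

/-! Module CR: critical points on the affine space. -/

open Finset MeasureTheory Filter Topology Matrix
open scoped ENNReal ContDiff

namespace Pool.Agent.Helper44.GJ

open Pool.Agent.Helper44.GF Pool.Agent.Helper44.GN Pool.Agent.Helper44.GH

theorem st_CR (hB : ST_BPP) (hI : ST_IN0) : ST_CR := by
  intro n m p W B hp2 hp3 hBW hcrit
  have hinj : Function.Injective W.mulVec := by
    intro x y hxy
    have h1 : B.mulVec (W.mulVec x) = B.mulVec (W.mulVec y) := by rw [hxy]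
    rwa [Matrix.mulVec_mulVec, Matrix.mulVec_mulVec, hBW, Matrix.one_mulVec,
      Matrix.one_mulVec] at h1
  have hMS : 0 < Mp p W := (hI n m p W (by linarith) hinj).1
  obtain ⟨hXW, -, hZ⟩ := hB n m p W hp2 hp3 hinj
  set X := Bp p W with hX
  have key : ∀ Z0 : Matrix (Fin n) (Fin m) ℝ, Matrix.trace ((X - B) * Z0) = 0 := by
    intro Z0
    have h1 : B * (Z0 - W * (B * Z0)) = 0 := by
      rw [Matrix.mul_sub, ← Matrix.mul_assoc, hBW, Matrix.one_mul, sub_self]
    have h2 := hcrit _ h1
    rw [(hZ (Z0 - W * (B * Z0))).2] at h2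
    have h3 : Matrix.trace (X * (Z0 - W * (B * Z0))) = 0 := by
      rcases mul_eq_zero.1 (neg_eq_zero.1 h2) with h | h
      · exact absurd h hMS.ne'
      · exact h
    rw [Matrix.mul_sub, ← Matrix.mul_assoc X W, hXW, Matrix.one_mul, ← Matrix.sub_mul] at h3
    exact h3
  have h4 := key (X - B)ᵀ
  have h5 : X - B = 0 := by
    ext a i
    have h6 : Matrix.trace ((X - B) * (X - B)ᵀ) = ∑ a, ∑ i, ((X - B) a i) ^ 2 := by
      simp only [Matrix.trace, Matrix.diag_apply, Matrix.mul_apply, Matrix.transpose_apply, sq]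
    rw [h6] at h4
    have h7 := (Finset.sum_eq_zero_iff_of_nonneg
      (fun a _ => Finset.sum_nonneg fun i _ => sq_nonneg _)).1 h4 a (Finset.mem_univ _)
    have h8 := (Finset.sum_eq_zero_iff_of_nonneg (fun i _ => sq_nonneg _)).1 h7 i
      (Finset.mem_univ _)
    simpa using h8
  exact sub_eq_zero.1 h5

end Pool.Agent.Helper44.GJ
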